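import Pool.Agent.helper29.NS.Spec2

/-!
# Project `ns:`, module UL: unique continuation from a small disc (from UZ by translation)
-/

namespace NS

open MeasureTheory Filter Topology Set

lemma UL_dt (f : ℝ × ℝ × ℝ → ℝ) (T : ℝ × ℝ × ℝ) :
    dt (fun z => f (z + T)) = fun z => dt f (z + T) := by
  funext z; unfold dt; rw [fderiv_comp_add_right]

lemma UL_dx (f : ℝ × ℝ × ℝ → ℝ) (T : ℝ × ℝ × ℝ) :
    dx (fun z => f (z + T)) = fun z => dx f (z + T) := by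
  funext z; unfold dx; rw [fderiv_comp_add_right]

lemma UL_dy (f : ℝ × ℝ × ℝ → ℝ) (T : ℝ × ℝ × ℝ) :
    dy (fun z => f (z + T)) = fun z => dy f (z + T) := by
  funext z; unfold dy; rw [fderiv_comp_add_right]

lemma UL_heat (ν : ℝ) (f : ℝ × ℝ × ℝ → ℝ) (T z : ℝ × ℝ × ℝ) :
    heat ν (fun z => f (z + T)) z = heat ν f (z + T) := by
  unfold heat
  rw [UL_dt, UL_dx, UL_dy, UL_dx, UL_dy]

lemma UL_dsc (c q : ℝ × ℝ) (R : ℝ) : q + c ∈ Dsc c R ↔ q ∈ Dsc 0 R := by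
  unfold Dsc
  simp

lemma UL_smooth {v : ℝ × ℝ × ℝ → ℝ} {c : ℝ × ℝ} {R : ℝ} (t : ℝ)
    (hv : ContDiffOn ℝ 2 v (univ ×ˢ Dsc c R)) :
    ContDiffOn ℝ 2 (fun z => v (z + (t, c))) (univ ×ˢ Dsc 0 R) := by
  refine hv.comp (t := univ ×ˢ Dsc c R) (contDiff_id.add contDiff_const).contDiffOn ?_
  rintro ⟨s, q⟩ ⟨-, hq⟩
  exact ⟨mem_univ _, (UL_dsc c q R).2 hq⟩

theorem UL (hUZ : UZ_stmt) : UL_stmt := by
  intro c R ε ν K v w hε hR hν hv hw hK h0 t q hq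
  have h := hUZ R ε ν K (fun z => v (z + (t, c))) (fun z => w (z + (t, c))) hε hR hν
    (UL_smooth t hv) (UL_smooth t hw) ?_ ?_ (q - c) ?_
  · have e : ((0 : ℝ), q - c) + (t, c) = (t, q) := by
      rw [Prod.mk_add_mk]; simp
    simp only [e] at h
    exact h
  · intro s p hp
    have hp' : p + c ∈ Dsc c R := (UL_dsc c p R).2 hp
    have := hK (s + t) (p + c) hp'
    rw [UL_heat, UL_heat, UL_dx, UL_dx, UL_dy, UL_dy]
    exact this
  · intro s p hp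
    have hp' : p + c ∈ Dsc c ε := (UL_dsc c p ε).2 hp
    exact h0 (s + t) (p + c) hp'
  · rw [← UL_dsc c (q - c) R]
    simpa using hq

end NS
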