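import Pool.Agent.helper29.NS.SpecC

/-!
# Project `ns:`, module KR: exterior of a disc and annulus are open and connected
-/

namespace NS

open MeasureTheory Filter Topology Set

/-- Polar coordinates. -/
noncomputable def KR_pol (z : ℝ × ℝ) : ℝ × ℝ := (z.1 * Real.cos z.2, z.1 * Real.sin z.2)

theorem KR_pol_cont : Continuous KR_pol := by
  unfold KR_pol
  fun_prop

theorem KR_pol_sq (z : ℝ × ℝ) : (KR_pol z).1 ^ 2 + (KR_pol z).2 ^ 2 = z.1 ^ 2 := by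
  unfold KR_pol
  have h := Real.sin_sq_add_cos_sq z.2
  simp only
  nlinarith [h]

theorem KR_pol_surj (q : ℝ × ℝ) : ∃ s θ : ℝ, 0 ≤ s ∧ q.1 ^ 2 + q.2 ^ 2 = s ^ 2 ∧
    KR_pol (s, θ) = q := by
  have h1 := Complex.norm_mul_cos_arg (⟨q.1, q.2⟩ : ℂ)
  have h2 := Complex.norm_mul_sin_arg (⟨q.1, q.2⟩ : ℂ)
  have h3 : KR_pol (‖(⟨q.1, q.2⟩ : ℂ)‖, Complex.arg ⟨q.1, q.2⟩) = q :=
    Prod.ext h1 h2
  refine ⟨‖(⟨q.1, q.2⟩ : ℂ)‖, Complex.arg ⟨q.1, q.2⟩, norm_nonneg _, ?_, h3⟩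
  have h4 := KR_pol_sq (‖(⟨q.1, q.2⟩ : ℂ)‖, Complex.arg ⟨q.1, q.2⟩)
  rw [h3] at h4
  exact h4

theorem KR : KR_stmt := by
  intro r R hr hR
  have hR0 : 0 < R := lt_of_le_of_lt hr hR
  refine ⟨isOpen_lt (by fun_prop) (by fun_prop), ?_, ?_, ?_, ?_⟩
  · have h : {q : ℝ × ℝ | r ^ 2 < q.1 ^ 2 + q.2 ^ 2} = KR_pol '' (Ioi r ×ˢ univ) := by
      ext q
      constructor
      · intro hq
        obtain ⟨s, θ, hs, h1, h2⟩ := KR_pol_surj q
        refine ⟨(s, θ), ⟨?_, mem_univ _⟩, h2⟩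
        have h3 : r ^ 2 < s ^ 2 := by
          rw [← h1]
          exact hq
        exact lt_of_pow_lt_pow_left₀ 2 hs h3
      · rintro ⟨z, ⟨hz, -⟩, rfl⟩
        have hz' : r < z.1 := hz
        change r ^ 2 < _
        rw [KR_pol_sq]
        exact pow_lt_pow_left₀ hz' hr two_ne_zero
    rw [h]
    exact (isPreconnected_Ioi.prod isPreconnected_univ).image _ KR_pol_cont.continuousOn
  · have h1 : IsOpen {q : ℝ × ℝ | r ^ 2 < q.1 ^ 2 + q.2 ^ 2} :=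
      isOpen_lt (by fun_prop) (by fun_prop)
    have h2 : IsOpen {q : ℝ × ℝ | q.1 ^ 2 + q.2 ^ 2 < R ^ 2} :=
      isOpen_lt (by fun_prop) (by fun_prop)
    exact h1.inter h2
  · have h : Ring r R = KR_pol '' (Ioo r R ×ˢ univ) := by
      ext q
      constructor
      · rintro ⟨hq, hq'⟩
        obtain ⟨s, θ, hs, h1, h2⟩ := KR_pol_surj q
        rw [h1] at hq hq'
        exact ⟨(s, θ), ⟨⟨lt_of_pow_lt_pow_left₀ 2 hs hq, lt_of_pow_lt_pow_left₀ 2 hR0.le hq'⟩,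
          mem_univ _⟩, h2⟩
      · rintro ⟨z, ⟨⟨hz, hz'⟩, -⟩, rfl⟩
        refine ⟨?_, ?_⟩
        · change r ^ 2 < _
          rw [KR_pol_sq]
          exact pow_lt_pow_left₀ hz hr two_ne_zero
        · change _ < R ^ 2
          rw [KR_pol_sq]
          exact pow_lt_pow_left₀ hz' (hr.trans hz.le) two_ne_zero
    rw [h]
    exact (isPreconnected_Ioo.prod isPreconnected_univ).image _ KR_pol_cont.continuousOn
  · refine ⟨((r + R) / 2, 0), ?_, ?_⟩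
    · change r ^ 2 < ((r + R) / 2) ^ 2 + 0 ^ 2
      nlinarith
    · change ((r + R) / 2) ^ 2 + 0 ^ 2 < R ^ 2
      nlinarith

end NS
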