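import Pool.Agent.helper29.NS.SpecD

/-!
# Project `ns:`, module LW: a connected piece of the domain near a chart point
-/

namespace NS

open MeasureTheory Filter Topology Set

/-- first rotated coordinate -/
noncomputable def LW_S (θ : ℝ) (c q : ℝ × ℝ) : ℝ :=
  (q.1 - c.1) * Real.cos θ + (q.2 - c.2) * Real.sin θ
/-- second rotated coordinate -/
noncomputable def LW_R (θ : ℝ) (c q : ℝ × ℝ) : ℝ :=
  -((q.1 - c.1) * Real.sin θ) + (q.2 - c.2) * Real.cos θ

theorem LW_pt (θ : ℝ) (c q : ℝ × ℝ) : pt θ c (LW_S θ c q) (LW_R θ c q) = q := by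
  have h := Real.sin_sq_add_cos_sq θ
  unfold pt LW_S LW_R
  apply Prod.ext
  · simp only
    linear_combination (q.1 - c.1) * h
  · simp only
    linear_combination (q.2 - c.2) * h

theorem LW_Spt (θ : ℝ) (c : ℝ × ℝ) (s r : ℝ) : LW_S θ c (pt θ c s r) = s := by
  have h := Real.sin_sq_add_cos_sq θ
  unfold pt LW_S
  simp only
  linear_combination s * h

theorem LW_Rpt (θ : ℝ) (c : ℝ × ℝ) (s r : ℝ) : LW_R θ c (pt θ c s r) = r := by
  have h := Real.sin_sq_add_cos_sq θ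
  unfold pt LW_R
  simp only
  linear_combination r * h

theorem LW_Sc (θ : ℝ) (c : ℝ × ℝ) : Continuous (LW_S θ c) := by
  unfold LW_S
  fun_prop

theorem LW_Rc (θ : ℝ) (c : ℝ × ℝ) : Continuous (LW_R θ c) := by
  unfold LW_R
  fun_prop

theorem LW_sq (θ : ℝ) (c q : ℝ × ℝ) :
    (q.1 - c.1) ^ 2 + (q.2 - c.2) ^ 2 = LW_S θ c q ^ 2 + LW_R θ c q ^ 2 := by
  have h := Real.sin_sq_add_cos_sq θ
  unfold LW_S LW_R
  linear_combination (-((q.1 - c.1) ^ 2 + (q.2 - c.2) ^ 2)) * h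

theorem LW : LW_stmt := by
  intro Ω c θ δ f hΩ hC ε hε
  have hfc : Continuous f := hC.smooth.continuous
  have hδ := hC.pos
  set h := min δ (ε / 2) with hh
  have hh0 : 0 < h := lt_min hδ (by positivity)
  have hhδ : h ≤ δ := min_le_left _ _
  have hhε : h ≤ ε / 2 := min_le_right _ _
  have e1 : ∀ᶠ s in 𝓝 (0 : ℝ), |f s| < h := by
    have h1 : ContinuousAt (fun s => |f s|) 0 := (continuous_abs.comp hfc).continuousAt
    refine h1.eventually_lt continuousAt_const ?_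
    simp only [hC.f0, abs_zero]
    exact hh0
  obtain ⟨η₀, hη₀, hball⟩ := Metric.eventually_nhds_iff.1 e1
  set η := min η₀ h with hη
  have hηpos : 0 < η := lt_min hη₀ hh0
  have hηh : η ≤ h := min_le_right _ _
  have hf : ∀ s, |s| < η → |f s| < h := by
    intro s hs
    exact hball (by rw [Real.dist_eq, sub_zero]; exact hs.trans_le (min_le_left _ _))
  have hmem : ∀ q : ℝ × ℝ, |LW_S θ c q| < δ → |LW_R θ c q| < δ →
      (q ∈ Ω ↔ f (LW_S θ c q) < LW_R θ c q) := by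
    intro q h1 h2
    have h3 := hC.graph _ _ h1 h2
    rwa [LW_pt] at h3
  refine ⟨{q | |LW_S θ c q| < η ∧ f (LW_S θ c q) < LW_R θ c q ∧ LW_R θ c q < h},
    ?_, ?_, ?_, η, hηpos, ?_⟩
  · exact (isOpen_lt (continuous_abs.comp (LW_Sc θ c)) continuous_const).inter
      ((isOpen_lt (hfc.comp (LW_Sc θ c)) (LW_Rc θ c)).inter
        (isOpen_lt (LW_Rc θ c) continuous_const))
  · have himg : {q : ℝ × ℝ | |LW_S θ c q| < η ∧ f (LW_S θ c q) < LW_R θ c q ∧ LW_R θ c q < h} =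
        (fun z : ℝ × ℝ => pt θ c z.1 (f z.1 + z.2 * (h - f z.1))) '' (Ioo (-η) η ×ˢ Ioo 0 1) := by
      ext q
      constructor
      · rintro ⟨h1, h2, h3⟩
        have h4 := (abs_lt.1 (hf _ h1)).2
        have h5 : 0 < h - f (LW_S θ c q) := by linarith
        refine ⟨(LW_S θ c q, (LW_R θ c q - f (LW_S θ c q)) / (h - f (LW_S θ c q))),
          ⟨abs_lt.1 h1, ⟨?_, ?_⟩⟩, ?_⟩
        · exact div_pos (by linarith) h5
        · rw [div_lt_one h5]
          linarith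
        · change pt θ c (LW_S θ c q) (f (LW_S θ c q) + (LW_R θ c q - f (LW_S θ c q)) /
            (h - f (LW_S θ c q)) * (h - f (LW_S θ c q))) = q
          rw [div_mul_cancel₀ _ h5.ne', add_sub_cancel, LW_pt]
      · rintro ⟨⟨s, t⟩, ⟨hs, ht⟩, rfl⟩
        have hs' : |s| < η := abs_lt.2 hs
        have ht0 : 0 < t := ht.1
        have ht1 : t < 1 := ht.2
        have h4 := (abs_lt.1 (hf _ hs')).2
        have h5 : 0 < h - f s := by linarith
        change |LW_S θ c (pt θ c s (f s + t * (h - f s)))| < η ∧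
          f (LW_S θ c (pt θ c s (f s + t * (h - f s)))) <
            LW_R θ c (pt θ c s (f s + t * (h - f s))) ∧
          LW_R θ c (pt θ c s (f s + t * (h - f s))) < h
        rw [LW_Spt, LW_Rpt]
        refine ⟨hs', ?_, ?_⟩
        · nlinarith [mul_pos ht0 h5]
        · nlinarith [mul_pos (sub_pos.2 ht1) h5]
    rw [himg]
    refine (isPreconnected_Ioo.prod isPreconnected_Ioo).image _ (Continuous.continuousOn ?_)
    unfold pt
    fun_prop
  · rintro q ⟨h1, h2, h3⟩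
    have h4 := abs_lt.1 (hf _ h1)
    have h5 : |LW_R θ c q| < h := abs_lt.2 ⟨by linarith, h3⟩
    refine ⟨(hmem q (h1.trans_le (hηh.trans hhδ)) (h5.trans_le hhδ)).2 h2, ?_⟩
    change (q.1 - c.1) ^ 2 + (q.2 - c.2) ^ 2 < ε ^ 2
    rw [LW_sq θ]
    have h6 : LW_S θ c q ^ 2 < (ε / 2) ^ 2 :=
      sq_lt_sq' (by have := (abs_lt.1 h1).1; linarith) (by have := (abs_lt.1 h1).2; linarith)
    have h7 : LW_R θ c q ^ 2 < (ε / 2) ^ 2 :=
      sq_lt_sq' (by have := (abs_lt.1 h5).1; linarith) (by have := (abs_lt.1 h5).2; linarith)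
    nlinarith
  · rintro q ⟨hq, hq2⟩
    have hq3 : (q.1 - c.1) ^ 2 + (q.2 - c.2) ^ 2 < η ^ 2 := hq2
    rw [LW_sq θ] at hq3
    have h1 : |LW_S θ c q| < η := abs_lt_of_sq_lt_sq (by nlinarith [sq_nonneg (LW_R θ c q)]) hηpos.le
    have h2 : |LW_R θ c q| < η := abs_lt_of_sq_lt_sq (by nlinarith [sq_nonneg (LW_S θ c q)]) hηpos.le
    exact ⟨h1, (hmem q (h1.trans_le (hηh.trans hhδ)) (h2.trans_le (hηh.trans hhδ))).1 hq,
      (abs_lt.1 (h2.trans_le hηh)).2⟩

end NS
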